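import Pool.Agent.H35.RK.Main
import Pool.Agent.H48.RK.Fin
import Pool.Agent.H48.RK.Num2
import Pool.Agent.H48.RK.NumP
import Pool.Agent.H48.RK.Cell
import Pool.Agent.H48.RK.Gau2
import Pool.Agent.H48.RK.LipNet
import Pool.Agent.H48.RK.Sup
import Pool.Agent.H72.RK.Gau
import Pool.Agent.H72.RK.BadToD
import Pool.Agent.H74.RK.Geo
import Pool.Agent.H77.RK.Grid
import Pool.Agent.H8.RK.Kos

/-!
# Random hypersurfaces: Theorem R without hypotheses
-/

set_option autoImplicit false

namespace Pool.Agent.H35.RK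

open Pool.Agent.H48.RK

theorem supB : SupBound :=
  supBound Pool.Agent.H72.RK.gamTail lip net Pool.Agent.H8.RK.kernel Pool.Agent.H8.RK.formSmul
    Pool.Agent.H8.RK.formDiff

theorem theoremRD : TheoremRD :=
  main Pool.Agent.H74.RK.geoD Pool.Agent.H77.RK.gridIn Pool.Agent.H77.RK.grid cells
    (smallBall Pool.Agent.H72.RK.gamUniv Pool.Agent.H72.RK.gamShift) lip supB num

theorem finalR : FinalR :=
  final Pool.Agent.H72.RK.gamUniv theoremRD Pool.Agent.H72.RK.badToD supB
    Pool.Agent.H8.RK.formSmul num2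

end Pool.Agent.H35.RK
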