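import Pool.Agent.H48.RK.Defs
import Pool.Agent.H8.RK.Kos

/-!
# Random hypersurfaces: the union bound over the cells (module MAIN)
-/

set_option autoImplicit false

namespace Pool.Agent.H35.RK

open Pool.Agent.H48.RK MeasureTheory Metric Set
open scoped BigOperators ComplexConjugate

theorem one_le_norm {m : ℕ} {h : ℂ → E m} (hh : Disc h) {t : ℂ} (ht : t ∈ ball (0 : ℂ) 1) :
    1 ≤ ‖h t‖ := by
  have h1 := norm_add_sq_eq_norm_sq_add_norm_sq_of_inner_eq_zero (h 0) (h t - h 0) (hh.orth t ht)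
  rw [add_sub_cancel, hh.unit] at h1
  have h2 := norm_nonneg (h t)
  have h3 := norm_nonneg (h t - h 0)
  nlinarith

theorem form_add {m d : ℕ} (a b : Idx m d → ℂ) (z : Fin m → ℂ) :
    form (a + b) z = form a z + form b z := by
  simp only [form, Pi.add_apply, add_mul, Finset.sum_add_distrib]

theorem form_smul_left {m d : ℕ} (s : ℂ) (a : Idx m d → ℂ) (z : Fin m → ℂ) :
    form (s • a) z = s * form a z := by
  simp only [form, Pi.smul_apply, smul_eq_mul, Finset.mul_sum, mul_assoc]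

/-- bounds on the sphere give bounds everywhere -/
theorem form_bound {m d : ℕ} (hd : 1 ≤ d) (a : Idx m d → ℂ) (S : ℝ)
    (hS : ∀ z : E m, ‖z‖ = 1 → ‖form a z.ofLp‖ ≤ S) (z : E m) :
    ‖form a z.ofLp‖ ≤ S * ‖z‖ ^ d := by
  rcases eq_or_ne z 0 with rfl | hz
  · have h1 : form a (0 : E m).ofLp = 0 := by
      have := Pool.Agent.H8.RK.formSmul m d a 0 (0 : E m).ofLp
      rw [zero_smul, zero_pow (by omega), zero_mul] at this
      exact this
    rw [h1, norm_zero, norm_zero, zero_pow (by omega), mul_zero]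
  · have hzn : 0 < ‖z‖ := norm_pos_iff.2 hz
    have e1 : z.ofLp = ((‖z‖ : ℝ) : ℂ) • (((‖z‖⁻¹ : ℝ) : ℂ) • z).ofLp := by
      rw [WithLp.ofLp_smul, smul_smul, ← Complex.ofReal_mul, mul_inv_cancel₀ hzn.ne',
        Complex.ofReal_one, one_smul]
    have e2 : ‖(((‖z‖⁻¹ : ℝ) : ℂ) • z)‖ = 1 := by
      rw [norm_smul, Complex.norm_real, norm_inv, norm_norm, inv_mul_cancel₀ hzn.ne']
    have e3 := hS _ e2
    rw [e1, Pool.Agent.H8.RK.formSmul, norm_mul, norm_pow, Complex.norm_real, norm_norm]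
    calc ‖z‖ ^ d * ‖form a (((‖z‖⁻¹ : ℝ) : ℂ) • z).ofLp‖ ≤ ‖z‖ ^ d * S :=
          mul_le_mul_of_nonneg_left e3 (by positivity)
      _ = S * ‖z‖ ^ d := mul_comm _ _

theorem norm_uv {m : ℕ} {h : ℂ → E m} {t : ℂ} (h1 : 1 ≤ ‖h t‖) : ‖uv h t‖ = 1 := by
  have : 0 < ‖h t‖ := by linarith
  rw [uv, norm_smul, Complex.norm_real, norm_inv, norm_norm, inv_mul_cancel₀ this.ne']

/-- the values of a form which vanishes on a disc `h` are small on the disc `h'` of the same cell -/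
theorem small_value {m d : ℕ} (hd : 1 ≤ d) (hL : Lip) (P : Idx m d → ℂ) (S : ℝ)
    (hS : ∀ z : E m, ‖z‖ = 1 → ‖form P z.ofLp‖ ≤ S) (hS0 : 0 ≤ S) {h h' : ℂ → E m} (hh' : Disc h')
    {t : ℂ} (ht : t ∈ ball (0 : ℂ) 1) {e : ℝ} (he : ‖h t - h' t‖ ≤ e) (hed : e ≤ 1 / (2 * d))
    (h0 : form P (h t).ofLp = 0) : ‖form P (uv h' t).ofLp‖ ≤ 6 * d * S * e := by
  have h1 := one_le_norm hh' ht
  have hpos : 0 < ‖h' t‖ := by linarith
  have hinv : ‖h' t‖⁻¹ ≤ 1 := inv_le_one_of_one_le₀ h1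
  set z : E m := uv h' t with hz
  set z' : E m := ((‖h' t‖⁻¹ : ℝ) : ℂ) • h t with hz'
  have e1 : z' - z = ((‖h' t‖⁻¹ : ℝ) : ℂ) • (h t - h' t) := by
    rw [hz', hz, uv, smul_sub]
  have e2 : ‖z' - z‖ ≤ e := by
    rw [e1, norm_smul, Complex.norm_real, norm_inv, norm_norm]
    calc ‖h' t‖⁻¹ * ‖h t - h' t‖ ≤ 1 * ‖h t - h' t‖ :=
          mul_le_mul_of_nonneg_right hinv (norm_nonneg _)
      _ ≤ e := by rw [one_mul]; exact he
  have e3 : form P z'.ofLp = 0 := by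
    rw [hz', WithLp.ofLp_smul, Pool.Agent.H8.RK.formSmul, h0, mul_zero]
  have e4 := hL m d hd (fun z : E m => form P z.ofLp) (Pool.Agent.H8.RK.formDiff m d P) S
    (form_bound hd P S hS) z z' (norm_uv h1) (e2.trans hed)
  simp only [e3, zero_sub, norm_neg] at e4
  refine e4.trans ?_
  have : 0 ≤ 6 * (d : ℝ) * S := by positivity
  exact mul_le_mul_of_nonneg_left e2 this

/-- the conclusion for `b₀ + a`, `b₀` bounded by `S₀ ≥ 1` -/
theorem bound (hGeo : GeoD) (hIn : GridIn) (hGrid : Grid) (hC : Cells) (hSB : SmallBall)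
    (hL : Lip) (hSup : SupBound) {m d m1 K : ℕ} (hm : 1 ≤ m) (hd : 1 ≤ d)
    (hm1 : 459 * ((m1 : ℝ) - 1) ≤ Real.sqrt d)
    (hK : 5 * 10 ^ 9 * (d : ℝ) ^ 8 ≤ 10 ^ K)
    (hsup : 8 * (m : ℝ) * Real.log (48 * d * m + 1) + 6 ≤ (d : ℝ) ^ 2)
    (S₀ : ℝ) (hS₀ : 1 ≤ S₀) (hS₀K : S₀ ^ 4 ≤ 10 ^ K)
    (b₀ : Idx m d → ℂ) (hb₀ : ∀ z : E m, ‖z‖ = 1 → ‖form b₀ z.ofLp‖ ≤ S₀) :
    gam (Idx m d) {a | BadD (b₀ + a)} ≤
      ENNReal.ofReal (Real.exp (-(d : ℝ) ^ 2 / 4) +
        (4 * (m : ℝ) * 10 ^ K + 1) ^ (2 * m * (K + 1)) * ((1 / 10 : ℝ) ^ K) ^ (m1 ^ 2)) := by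
  classical
  obtain ⟨C, _, cell, hcard, hcell⟩ := hC m K hm
  -- a disc in every cell which contains one
  set rep : C → ℂ → E m := fun c => if h : ∃ h, Disc h ∧ cell h = c then h.choose else 0 with hrep
  have hrep1 : ∀ h : ℂ → E m, Disc h → Disc (rep (cell h)) ∧ cell (rep (cell h)) = cell h := by
    intro h hh
    have hex : ∃ h', Disc h' ∧ cell h' = cell h := ⟨h, hh, rfl⟩
    have e : rep (cell h) = hex.choose := dif_pos hex
    rw [e]
    exact hex.choose_spec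
  have h10 : (0 : ℝ) < 10 ^ K := by positivity
  have hd1 : (1 : ℝ) ≤ d := by exact_mod_cast hd
  have hd0 : (0 : ℝ) < d := by linarith
  set e : ℝ := (1 / 10) ^ K with he
  have he0 : 0 < e := by positivity
  have heK : e * 10 ^ K = 1 := by
    rw [he, ← mul_pow]
    norm_num
  set η : ℝ := 18 * d ^ 2 * S₀ * e with hη
  have hη0 : 0 < η := by positivity
  -- `212 η² ≤ 10^(-K)`
  have hη1 : 212 * η ^ 2 ≤ e := by
    have h1 : 68688 * (d : ℝ) ^ 4 * S₀ ^ 2 ≤ 10 ^ K := by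
      have h2 : (68688 * (d : ℝ) ^ 4 * S₀ ^ 2) ^ 2 ≤ (10 ^ K) ^ 2 := by
        calc (68688 * (d : ℝ) ^ 4 * S₀ ^ 2) ^ 2 = 68688 ^ 2 * (d : ℝ) ^ 8 * S₀ ^ 4 := by ring
          _ ≤ (5 * 10 ^ 9 * (d : ℝ) ^ 8) * S₀ ^ 4 := by
              refine mul_le_mul_of_nonneg_right ?_ (by positivity)
              exact mul_le_mul_of_nonneg_right (by norm_num) (by positivity)
          _ ≤ 10 ^ K * 10 ^ K := mul_le_mul hK hS₀K (by positivity) (by positivity)
          _ = (10 ^ K) ^ 2 := by ring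
      exact (pow_le_pow_iff_left₀ (by positivity) (by positivity) (by norm_num)).1 h2
    calc 212 * η ^ 2 = (68688 * (d : ℝ) ^ 4 * S₀ ^ 2) * e * e := by rw [hη]; ring
      _ ≤ 10 ^ K * e * e := by gcongr
      _ = (e * 10 ^ K) * e := by ring
      _ = e := by rw [heK, one_mul]
  have he1 : e ≤ 1 := by
    rw [he]
    exact pow_le_one₀ (by norm_num) (by norm_num)
  have hη2 : η ≤ 1 := by
    by_contra hn
    push Not at hn
    nlinarith
  have hed : e ≤ 1 / (2 * d) := by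
    rw [le_div_iff₀ (by positivity)]
    have h1 : 2 * (d : ℝ) ≤ 10 ^ K := by
      refine le_trans ?_ hK
      have : (d : ℝ) ≤ (d : ℝ) ^ 8 := le_self_pow₀ hd1 (by norm_num)
      nlinarith
    calc e * (2 * d) ≤ e * 10 ^ K := mul_le_mul_of_nonneg_left h1 he0.le
      _ = 1 := heK
  -- the vectors
  set v : C → (Fin m1 × Fin m1) → Idx m d → ℂ := fun c i α => phi (uv (rep c) (pt d i)).ofLp α with hv
  set x : C → (Fin m1 × Fin m1) → ℂ := fun c i => form b₀ (uv (rep c) (pt d i)).ofLp with hx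
  set U : Set (Idx m d → ℂ) := {a | ∃ z : E m, ‖z‖ = 1 ∧ 2 * (d : ℝ) < ‖form a z.ofLp‖} with hU
  set V : C → Set (Idx m d → ℂ) := fun c =>
    if Disc (rep c) then {a | ∀ i, ‖∑ t, a t * v c i t + x c i‖ ≤ η} else ∅ with hV
  have hball : ∀ i : Fin m1 × Fin m1, pt d i ∈ ball (0 : ℂ) 1 := by
    intro i
    rw [mem_ball_zero_iff]
    exact lt_of_le_of_lt (hIn d m1 hd hm1 i) (by norm_num)
  have hVm : ∀ c, gam (Idx m d) (V c) ≤ ENNReal.ofReal (e ^ (m1 ^ 2)) := by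
    intro c
    by_cases hc : Disc (rep c)
    · have e1 : V c = {a | ∀ i, ‖∑ t, a t * v c i t + x c i‖ ≤ η} := if_pos hc
      rw [e1]
      have h1 := hSB (Idx m d) (Fin m1 × Fin m1) (v c) (fun i => by
          have h2 := norm_uv (one_le_norm hc (hball i))
          have h3 := Pool.Agent.H8.RK.sum_norm_sq (d := d) (uv (rep c) (pt d i)).ofLp
          refine h3.trans ?_
          have h4 : ∑ k, ‖(uv (rep c) (pt d i)).ofLp k‖ ^ 2 = 1 := by
            rw [← EuclideanSpace.norm_sq_eq, h2, one_pow]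
          rw [h4, one_pow]) (fun i => by
          refine le_trans (le_of_eq ?_) (hGrid m d m1 hd hm1 (rep c) hc i)
          refine Finset.sum_congr rfl fun j _ => ?_
          rw [hv, Pool.Agent.H8.RK.kernel]) (x c) η hη0 hη2
      refine h1.trans (ENNReal.ofReal_le_ofReal ?_)
      have h2 : Fintype.card (Fin m1 × Fin m1) = m1 ^ 2 := by
        rw [Fintype.card_prod, Fintype.card_fin, sq]
      rw [h2]
      exact pow_le_pow_left₀ (by positivity) hη1 _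
    · have e1 : V c = ∅ := if_neg hc
      rw [e1, measure_empty]
      exact zero_le
  have hsub : {a | BadD (b₀ + a)} ⊆ U ∪ ⋃ c, V c := by
    intro a ha
    by_cases haU : a ∈ U
    · exact Or.inl haU
    right
    have hsa : ∀ z : E m, ‖z‖ = 1 → ‖form a z.ofLp‖ ≤ 2 * d := by
      intro z hz
      by_contra hn
      exact haU ⟨z, hz, not_le.1 hn⟩
    obtain ⟨f, hf1, hf2, hf3, hf4⟩ := ha
    obtain ⟨h, hh, hhf⟩ := hGeo m f hf1 hf2 hf4
    have hform : ∀ t ∈ ball (0 : ℂ) 1, form (b₀ + a) (h t).ofLp = 0 := by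
      intro t ht
      obtain ⟨z, hz, c, hc⟩ := hhf t ht
      rw [hc, Pool.Agent.H8.RK.formSmul, hf3 z hz, mul_zero]
    obtain ⟨hr1, hr2⟩ := hrep1 h hh
    rw [mem_iUnion]
    refine ⟨cell h, ?_⟩
    have e1 : V (cell h) = {a | ∀ i, ‖∑ t, a t * v (cell h) i t + x (cell h) i‖ ≤ η} := if_pos hr1
    rw [e1]
    intro i
    have h3 := hcell h (rep (cell h)) hh hr1 hr2.symm (pt d i) (hIn d m1 hd hm1 i)
    have h4 := small_value hd hL (b₀ + a) (S₀ + 2 * d) (fun z hz => by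
      rw [form_add]
      exact (norm_add_le _ _).trans (add_le_add (hb₀ z hz) (hsa z hz))) (by positivity) hr1 (hball i)
      h3 hed (hform _ (hball i))
    rw [form_add] at h4
    have e2 : ∑ t, a t * v (cell h) i t + x (cell h) i =
        form b₀ (uv (rep (cell h)) (pt d i)).ofLp + form a (uv (rep (cell h)) (pt d i)).ofLp := by
      rw [add_comm]
      rfl
    rw [e2]
    refine h4.trans ?_
    rw [hη]
    have h5 : 6 * (d : ℝ) * (S₀ + 2 * d) ≤ 18 * d ^ 2 * S₀ := by nlinarith [mul_nonneg hd0.le (sub_nonneg.2 hS₀), mul_nonneg (mul_nonneg hd0.le (sub_nonneg.2 hd1)) (by linarith : (0 : ℝ) ≤ S₀), mul_nonneg (mul_nonneg hd0.le hd0.le) (sub_nonneg.2 hS₀)]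
    exact mul_le_mul_of_nonneg_right h5 he0.le
  have hfin : gam (Idx m d) (⋃ c, V c) ≤ Fintype.card C * ENNReal.ofReal (e ^ (m1 ^ 2)) := by
    refine (measure_iUnion_fintype_le _ _).trans ?_
    refine (Finset.sum_le_sum fun c _ => hVm c).trans ?_
    rw [Finset.sum_const, nsmul_eq_mul, Finset.card_univ]
  refine (measure_mono hsub).trans ((measure_union_le _ _).trans ?_)
  rw [ENNReal.ofReal_add (Real.exp_pos _).le (by positivity)]
  refine add_le_add (hSup m d hm hd hsup) (hfin.trans ?_)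
  rw [ENNReal.ofReal_mul (by positivity)]
  refine mul_le_mul_left ?_ _
  rw [← ENNReal.ofReal_natCast]
  refine ENNReal.ofReal_le_ofReal ?_
  exact_mod_cast hcard

/-- **MAIN** -/
theorem main (hGeo : GeoD) (hIn : GridIn) (hGrid : Grid) (hC : Cells) (hSB : SmallBall)
    (hL : Lip) (hSup : SupBound) (hNum : Pool.Agent.H48.RK.Num) : TheoremRD := by
  obtain ⟨C, c, hC0, hc0, h⟩ := hNum
  refine ⟨C, c, hC0, hc0, fun n d hn hd a₀ ha₀ s hs => ?_⟩
  obtain ⟨m1, K, -, hd1, hm1, -, hK, hsup, hcK, hfin⟩ := h n d hn hd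
  set ε : ℝ := Real.exp (-c * d / (n + 2)) with hε
  have hε0 : 0 < ε := Real.exp_pos _
  have hε1 : ε ≤ 1 := by
    rw [hε, Real.exp_le_one_iff]
    have h1 : (0 : ℝ) ≤ c * d := by positivity
    have h2 : (0 : ℝ) < (n : ℝ) + 2 := by positivity
    rw [div_le_iff₀ h2]
    linarith
  have hs0 : 0 < s := hε0.trans_le hs
  have hsC : (s : ℂ) ≠ 0 := by exact_mod_cast hs0.ne'
  have hb := bound hGeo hIn hGrid hC hSB hL hSup (m := n + 2) (d := d) (m1 := m1) (K := K)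
    (by omega) hd1 hm1 hK hsup ε⁻¹ ((one_le_inv₀ hε0).2 hε1) (by
      rw [inv_pow, inv_le_iff_one_le_mul₀ (by positivity)]
      have h1 : ((1 : ℝ) / 10) ^ K * 10 ^ K = 1 := by
        rw [← mul_pow]
        norm_num
      calc (1 : ℝ) = (1 / 10) ^ K * 10 ^ K := h1.symm
        _ ≤ ε ^ 4 * 10 ^ K := mul_le_mul_of_nonneg_right hcK (by positivity)
        _ = 10 ^ K * ε ^ 4 := mul_comm _ _) ((s : ℂ)⁻¹ • a₀) (fun z hz => by
      rw [form_smul_left, norm_mul, norm_inv, Complex.norm_real, Real.norm_of_nonneg hs0.le]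
      calc s⁻¹ * ‖form a₀ z.ofLp‖ ≤ ε⁻¹ * 1 :=
            mul_le_mul (inv_anti₀ hε0 hs) (ha₀ z hz.le) (norm_nonneg _) (inv_nonneg.2 hε0.le)
        _ = ε⁻¹ := mul_one _)
  refine le_trans (measure_mono ?_) (hb.trans (ENNReal.ofReal_le_ofReal hfin))
  rintro a ⟨f, hf1, hf2, hf3, hf4⟩
  refine ⟨f, hf1, hf2, fun z hz => ?_, hf4⟩
  have h1 := hf3 z hz
  have e : a₀ + (s : ℂ) • a = (s : ℂ) • ((s : ℂ)⁻¹ • a₀ + a) := by
    rw [smul_add, smul_smul, mul_inv_cancel₀ hsC, one_smul]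
  rw [e, form_smul_left] at h1
  exact (mul_eq_zero.1 h1).resolve_left hsC

end Pool.Agent.H35.RK
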